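import Pool.Agent.Run7.h982.QP.Iface

/-!
# Piece CUBE of project QP (helper982)
-/

set_option autoImplicit false
set_option linter.unusedSectionVars false

namespace Pool.Agent.Run7.h416.QP

open Finset Filter Topology MeasureTheory ProbabilityTheory
open scoped InnerProductSpace ENNReal
open Pool.Agent.K7.H83.MA
open Pool.Agent.Run7.h982.QP

universe u

section

variable {X : Type u} [MeasurableSpace X] [StandardBorelSpace X] {μ : Measure X}
  [IsProbabilityMeasure μ]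
variable {r : ℕ} {c : ℕ → Fin r} {T : ℕ → X → X}

theorem iF_BM {A : Set X} (hA : MeasurableSet A) : BM (iF A) := ind_BM hA

theorem iF_conj (A : Set X) (x : X) : (starRingEnd ℂ) (iF A x) = iF A x := by
  unfold iF
  by_cases h : x ∈ A
  · rw [Set.indicator_of_mem h]; simp
  · rw [Set.indicator_of_notMem h]; simp

theorem iF_norm (A : Set X) (x : X) : ‖iF A x‖ ≤ 1 := by
  unfold iF
  by_cases h : x ∈ A
  · rw [Set.indicator_of_mem h]; simp
  · rw [Set.indicator_of_notMem h]; simp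

theorem inner_mul_bl {a φ : X → ℂ} (ha : BM a) (hφ : BM φ)
    (hr : ∀ x, (starRingEnd ℂ) (φ x) = φ x) (v : Lp ℂ 2 μ) :
    ⟪bl μ (fun x => a x * φ x), v⟫_ℂ = ⟪bl μ a, mulB μ φ v⟫_ℂ := by
  rw [L2.inner_def, L2.inner_def]
  refine integral_congr_ae ?_
  filter_upwards [bl_coe (ha.mul hφ), bl_coe ha, mulB_coe hφ v] with x h1 h2 h3
  rw [h1, h2, h3, RCLike.inner_apply, RCLike.inner_apply, map_mul, hr]
  ring

theorem Bn_BM (h : Sys c μ T) {A : Set X} (hA : MeasurableSet A) {n : ℕ} (hn : 0 < n) :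
    BM (fun x => iF A x * iF A (T n x)) :=
  (iF_BM hA).mul ((iF_BM hA).comp (h.mp n hn).measurable)

theorem Bn_norm (h : Sys c μ T) {A : Set X} (hA : MeasurableSet A) {n : ℕ} (hn : 0 < n) :
    ‖Bn μ T A n‖ ≤ 1 := by
  refine bl_norm_le (Bn_BM h hA hn) zero_le_one fun x => ?_
  rw [norm_mul]
  exact mul_le_one₀ (iF_norm A x) (norm_nonneg _) (iF_norm A _)

theorem tt_zero (Q : ℕ) (π : Fin r → ℕ) : tt Q π (0 : GG r Q) = 1 := by
  unfold tt
  refine Finset.prod_eq_one fun i _ => ?_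
  simp

end

theorem t_CUBE (hD : S_DEN) : S_CUBE.{u} := by
  classical
  intro X _ _ μ _ r c T h Q hQ π hπ A hA k s₀ g
  obtain ⟨d, hs⟩ := seq_lab c Q hπ s₀ g
  obtain ⟨d', hs'⟩ := seq_lab c Q hπ (Q ^ k) 0
  have hd' : 0 < d' := by
    obtain ⟨d'', h1, h2⟩ := hD r c Q hQ k
    rw [tendsto_nhds_unique hs'.dens h2]
    exact h1
  have hQk : 0 < Q ^ k := pow_pos hQ k
  have hd0 : 0 ≤ d := ge_of_tendsto' hs.dens fun N => by positivity
  have hpos : ∀ (s : ℕ) (g : GG r Q) (N n : ℕ), n ∈ lab c Q N s g → 0 < n :=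
    fun s g N n hn => ((mem_lab c Q).1 hn).1.1
  have hcard : ∀ (s : ℕ) (g : GG r Q) (N : ℕ), ((lab c Q N s g).card : ℝ) ≤ N := by
    intro s g N
    exact card_le_of_sub (L := fun N => lab c Q N s g)
      (fun N n hn => mem_Ioc.2 ((mem_lab c Q).1 hn).1) N
  rcases hd0.lt_or_eq with hd | hd
  · -- positive density
    obtain ⟨n₀, hn₀⟩ : ∃ n, sp c Q n = s₀ ∧ 0 < n := by
      have h1 := hs.dens.eventually (lt_mem_nhds hd)
      obtain ⟨N, hN⟩ := h1.exists
      have h2 : (lab c Q N s₀ g).Nonempty := by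
        rw [Finset.nonempty_iff_ne_empty]
        intro h3
        rw [h3] at hN
        simp at hN
      obtain ⟨n, hn⟩ := h2
      rw [mem_lab] at hn
      exact ⟨n, hn.2.1, hn.1.1⟩
    have hs0 : 0 < s₀ := by
      rw [← hn₀.1]
      exact sp_pos c Q hn₀.2
    set t := s₀ * tt Q π g with htd
    have ht : 0 < t := Nat.mul_pos hs0 (tt_pos Q hπ.pos g)
    have hr := fun n => hs.pos n
    have hiA : BM (iF A) := iF_BM hA
    have hB1 : BM (fun x => iF A (T t x)) := hiA.comp (h.mp t ht).measurable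
    have hB2 : BM (fun x => iF A (T (Q ^ k) x)) := hiA.comp (h.mp _ hQk).measurable
    have hB4 : BM (fun x => iF A (T t (T (Q ^ k) x))) := hB1.comp (h.mp _ hQk).measurable
    have hlim := CN_VN h hs (inv_lab c Q hQ hπ s₀ g h.FG)
      (inv_lab c Q hQ hπ s₀ g (h.prod hs.qpos).FG) hd hs'
      (inv_lab c Q hQ hπ (Q ^ k) 0 h.FG)
      (inv_lab c Q hQ hπ (Q ^ k) 0 (h.prod hs.qpos).FG) hd' hB1 hB2 hB4
    have hlim2 := (Tendsto.inner (𝕜 := ℂ) (tendsto_const_nhds (x := iv μ A)) hlim)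
    rw [inner_zero_right] at hlim2
    refine hlim2.congr fun N => ?_
    -- identification of the vectors
    have hBn : ∀ n ∈ lab c Q N s₀ g, Bn μ T A n =
        bl μ (fun x => iF A x * iF A (T t (T (rr c Q π n) x))) := by
      intro n hn
      rw [mem_lab] at hn
      have hu1 := u_lab c Q h.FG hπ hQ hn.1.1
      rw [hn.2.1, hn.2.2, ← htd] at hu1
      have e1 := ae_of_u h hn.1.1 ht (hr n) (by rw [hu1, h.FG.comm ht (hr n)]) hiA
      refine bl_congr (Bn_BM h hA hn.1.1) (hiA.mul (hB1.comp (h.mp _ (hr n)).measurable)) ?_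
      filter_upwards [e1] with x hx
      rw [hx]
    have hkQ : ∀ n ∈ lab c Q N s₀ g, koop μ T (Q ^ k) (Bn μ T A n) =
        gv μ T (rr c Q π n) (fun x => iF A (T (Q ^ k) x)) (fun x => iF A (T t (T (Q ^ k) x))) := by
      intro n hn
      have hmn := (h.mp _ (hr n)).measurable
      rw [hBn n hn, koop_bl (h.mp _ hQk) (hiA.mul (hB1.comp hmn))]
      unfold gv
      refine bl_congr ((hiA.mul (hB1.comp hmn)).comp (h.mp _ hQk).measurable)
        (hB2.mul (hB4.comp hmn)) ?_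
      filter_upwards [h.comm (hr n) hQk] with x hx
      rw [hx]
    have hkm : ∀ m ∈ lab c Q N (Q ^ k) 0, koop μ T m =
        koop μ T (rr c Q π m) * koop μ T (Q ^ k) := by
      intro m hm
      rw [mem_lab] at hm
      have hu1 := u_lab c Q h.FG hπ hQ hm.1.1
      rw [hm.2.1, hm.2.2, tt_zero, mul_one] at hu1
      rw [hu1, h.FG.comm hQk (hr m)]
    have hin : ∀ n ∈ lab c Q N s₀ g, ∀ v : Lp ℂ 2 μ, ⟪Bn μ T A n, v⟫_ℂ =
        ⟪iv μ A, mulB μ (fun x => iF A (T t (T (rr c Q π n) x))) v⟫_ℂ := by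
      intro n hn v
      rw [hBn n hn]
      exact inner_mul_bl hiA (hB1.comp (h.mp _ (hr n)).measurable) (fun x => iF_conj A _) v
    rw [inner_sub_right, inner_smul_right]
    congr 1
    · unfold CN avg
      rw [inner_smul_right, inner_sum, mul_assoc]
      congr 1
      rw [Finset.mul_sum]
      refine Finset.sum_congr rfl fun n hn => ?_
      have h5 := hin n hn
      rw [← h5, _root_.smul_apply, inner_smul_right, _root_.sum_apply, inner_sum]
      congr 1
      refine Finset.sum_congr rfl fun m hm => ?_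
      rw [hkm m hm, ContinuousLinearMap.mul_apply, hkQ n hn]
    · unfold VN
      rw [inner_smul_right, inner_sum]
      congr 2
      refine Finset.sum_congr rfl fun n hn => ?_
      rw [← hin n hn, hkQ n hn]
  · -- zero density
    have hdens := hs.dens
    rw [← hd] at hdens
    have hlim : Tendsto (fun N : ℕ => 2 * (((lab c Q N s₀ g).card : ℝ) / N)) atTop (𝓝 (2 * 0)) :=
      hdens.const_mul 2
    rw [mul_zero] at hlim
    refine squeeze_zero_norm (fun N => ?_) hlim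
    rcases Nat.eq_zero_or_pos N with h0 | h0
    · subst h0
      simp
    have hN : (0 : ℝ) < N := by exact_mod_cast h0
    have hc1 := hcard s₀ g N
    have hc2 := hcard (Q ^ k) 0 N
    have hin1 : ∀ n ∈ lab c Q N s₀ g, ∀ m ∈ lab c Q N (Q ^ k) 0,
        ‖⟪Bn μ T A n, koop μ T m (Bn μ T A n)⟫_ℂ‖ ≤ 1 := by
      intro n hn m hm
      have h1 := Bn_norm h hA (hpos _ _ _ _ hn)
      refine (norm_inner_le_norm _ _).trans ?_
      rw [koop_norm (h.mp m (hpos _ _ _ _ hm))]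
      exact mul_le_one₀ h1 (norm_nonneg _) h1
    have hin2 : ∀ n ∈ lab c Q N s₀ g,
        ‖⟪Bn μ T A n, PI (koop μ T) (qq c Q π) (koop μ T (Q ^ k) (Bn μ T A n))⟫_ℂ‖ ≤ 1 := by
      intro n hn
      have h1 := Bn_norm h hA (hpos _ _ _ _ hn)
      refine (norm_inner_le_norm _ _).trans ?_
      have h2 := PI_norm (q := qq c Q π) (koop μ T) (koop μ T (Q ^ k) (Bn μ T A n))
      rw [koop_norm (h.mp _ hQk)] at h2
      exact mul_le_one₀ h1 (norm_nonneg _) (h2.trans h1)
    have e1 : ‖((N : ℂ)⁻¹ * (N : ℂ)⁻¹) * ∑ n ∈ lab c Q N s₀ g, ∑ m ∈ lab c Q N (Q ^ k) 0,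
        ⟪Bn μ T A n, koop μ T m (Bn μ T A n)⟫_ℂ‖ ≤ ((lab c Q N s₀ g).card : ℝ) / N := by
      have h1 : ‖∑ n ∈ lab c Q N s₀ g, ∑ m ∈ lab c Q N (Q ^ k) 0,
          ⟪Bn μ T A n, koop μ T m (Bn μ T A n)⟫_ℂ‖ ≤ (lab c Q N s₀ g).card * N := by
        refine (norm_sum_le _ _).trans ?_
        have h2 : ∀ n ∈ lab c Q N s₀ g, ‖∑ m ∈ lab c Q N (Q ^ k) 0,
            ⟪Bn μ T A n, koop μ T m (Bn μ T A n)⟫_ℂ‖ ≤ N := by
          intro n hn
          refine (norm_sum_le _ _).trans ((Finset.sum_le_sum (hin1 n hn)).trans ?_)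
          rw [Finset.sum_const, nsmul_eq_mul, mul_one]
          exact hc2
        refine (Finset.sum_le_sum h2).trans ?_
        rw [Finset.sum_const, nsmul_eq_mul]
      rw [norm_mul, norm_mul, norm_inv, Complex.norm_natCast]
      calc _ ≤ ((N : ℝ)⁻¹ * (N : ℝ)⁻¹) * ((lab c Q N s₀ g).card * N) :=
            mul_le_mul_of_nonneg_left h1 (by positivity)
        _ = _ := by field_simp
    have e2 : ‖((((lab c Q N (Q ^ k) 0).card : ℝ) / N : ℝ) : ℂ) * ((N : ℂ)⁻¹ *
        ∑ n ∈ lab c Q N s₀ g,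
          ⟪Bn μ T A n, PI (koop μ T) (qq c Q π) (koop μ T (Q ^ k) (Bn μ T A n))⟫_ℂ)‖ ≤
        ((lab c Q N s₀ g).card : ℝ) / N := by
      have h1 : ‖∑ n ∈ lab c Q N s₀ g,
          ⟪Bn μ T A n, PI (koop μ T) (qq c Q π) (koop μ T (Q ^ k) (Bn μ T A n))⟫_ℂ‖ ≤
          (lab c Q N s₀ g).card := by
        refine (norm_sum_le _ _).trans ((Finset.sum_le_sum hin2).trans ?_)
        rw [Finset.sum_const, nsmul_eq_mul, mul_one]
      rw [norm_mul, norm_mul, norm_inv, Complex.norm_natCast, Complex.norm_real, Real.norm_eq_abs,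
        abs_of_nonneg (by positivity)]
      have h2 : ((lab c Q N (Q ^ k) 0).card : ℝ) / N ≤ 1 := by
        rw [div_le_one hN]
        exact hc2
      calc _ ≤ 1 * ((N : ℝ)⁻¹ * (lab c Q N s₀ g).card) :=
            mul_le_mul h2 (mul_le_mul_of_nonneg_left h1 (by positivity)) (by positivity)
              zero_le_one
        _ = _ := by rw [one_mul, div_eq_inv_mul]
    refine (norm_sub_le _ _).trans ?_
    linarith

end Pool.Agent.Run7.h416.QP
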