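import Pool.Agent.Run7.h982.QP.Iface

/-!
# Pieces DEN and COV of project QP (helper982)
-/

set_option autoImplicit false

namespace Pool.Agent.Run7.h416.QP

open Finset Filter Topology
open Pool.Agent.K7.H83.MA
open Pool.Agent.Run7.h982.QP

section

variable {r : ℕ} (c : ℕ → Fin r) (Q : ℕ)

theorem sp_of_dvd : ∀ n : ℕ, 0 < n → n ∣ Q → sp c Q n = n := by
  classical
  intro n
  induction n using Nat.recOnMul with
  | zero => intro h; omega
  | one => intro _ _; exact sp_one c Q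
  | prime p h =>
    intro _ h2
    have h3 : Sp c Q p := Or.inr h2
    rw [sp_prime c Q h, if_pos h3]
  | mul a b ha hb =>
    intro h1 h2
    have h3 : 0 < a := Nat.pos_of_mul_pos_right h1
    have h4 : 0 < b := Nat.pos_of_mul_pos_left h1
    rw [sp_mul c Q h3 h4, ha h3 (dvd_of_mul_right_dvd h2), hb h4 (dvd_of_mul_left_dvd h2)]

theorem sp_pow (hQ : 0 < Q) (k : ℕ) : sp c Q (Q ^ k) = Q ^ k := by
  induction k with
  | zero => rw [pow_zero, sp_one]
  | succ k ih => rw [pow_succ, sp_mul c Q (pow_pos hQ k) hQ, ih, sp_of_dvd c Q Q hQ dvd_rfl]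

theorem gam_pow0 (hQ : 0 < Q) (k : ℕ) : gam c Q (Q ^ k) = 0 := by
  have h := gam_sp c Q (pow_pos hQ k)
  rwa [sp_pow c Q hQ k] at h

theorem gam_npow {n : ℕ} (hn : 0 < n) (k : ℕ) : gam c Q (n ^ k) = k • gam c Q n := by
  induction k with
  | zero => rw [pow_zero, gam_one, zero_smul]
  | succ k ih => rw [pow_succ, gam_mul c Q (pow_pos hn k) hn, ih, succ_nsmul]

theorem sp_npow {n : ℕ} (hn : 0 < n) (h : sp c Q n = 1) (k : ℕ) : sp c Q (n ^ k) = 1 := by
  induction k with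
  | zero => rw [pow_zero, sp_one]
  | succ k ih => rw [pow_succ, sp_mul c Q (pow_pos hn k) hn, ih, h, one_mul]

theorem lab_mono {M N s₀ : ℕ} {g : GG r Q} (h : M ≤ N) : lab c Q M s₀ g ⊆ lab c Q N s₀ g := by
  intro n hn
  rw [mem_lab] at hn ⊢
  exact ⟨⟨hn.1.1, hn.1.2.trans h⟩, hn.2⟩

theorem card_lab {s₀ : ℕ} (hs0 : 0 < s₀) (hs1 : sp c Q s₀ = s₀) (hs2 : gam c Q s₀ = 0) (N : ℕ)
    (g : GG r Q) : (lab c Q N s₀ g).card = (lab c Q (N / s₀) 1 g).card := by
  have h := lab_sum c Q (fun _ => (1 : ℕ)) hs0 hs1 hs2 N g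
  simpa using h

/-- a shift by an element of label `-g` -/
theorem shift {g : GG r Q} {t : ℕ} (ht : 0 < t) (ht1 : sp c Q t = 1) (ht2 : gam c Q t = -g)
    (N : ℕ) : (lab c Q N 1 g).card ≤ (lab c Q (N * t) 1 0).card := by
  refine Finset.card_le_card_of_injOn (fun n => n * t) ?_ ?_
  · intro n hn
    rw [Finset.mem_coe, mem_lab] at hn
    rw [Finset.mem_coe, mem_lab]
    refine ⟨⟨Nat.mul_pos hn.1.1 ht, Nat.mul_le_mul_right t hn.1.2⟩, ?_, ?_⟩
    · rw [sp_mul c Q hn.1.1 ht, hn.2.1, ht1]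
    · rw [gam_mul c Q hn.1.1 ht, hn.2.2, ht2, add_neg_cancel]
  · intro a _ b _ hab
    exact Nat.eq_of_mul_eq_mul_right ht hab

theorem zero_one (hQ : 0 < Q)
    (h0 : Tendsto (fun N : ℕ => ((lab c Q N 1 0).card : ℝ) / N) atTop (𝓝 0)) (g : GG r Q) :
    Tendsto (fun N : ℕ => ((lab c Q N 1 g).card : ℝ) / N) atTop (𝓝 0) := by
  by_cases hne : ∃ M, (lab c Q M 1 g).Nonempty
  · obtain ⟨M, n₀, hn₀⟩ := hne
    rw [mem_lab] at hn₀
    set t := n₀ ^ (Nat.totient Q - 1) with htdef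
    have ht : 0 < t := pow_pos hn₀.1.1 _
    have ht1 : sp c Q t = 1 := sp_npow c Q hn₀.1.1 hn₀.2.1 _
    have ht2 : gam c Q t = -g := by
      rw [htdef, gam_npow c Q hn₀.1.1, hn₀.2.2]
      have h1 := GG_kill Q hQ g
      have h2 : (Nat.totient Q - 1) + 1 = Nat.totient Q := by
        have := Nat.totient_pos.2 hQ
        omega
      have h3 : ((Nat.totient Q - 1) + 1) • g = 0 :=
        (congrArg (fun e : ℕ => e • g) h2).trans h1
      rw [succ_nsmul] at h3
      exact eq_neg_of_add_eq_zero_left h3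
    have h3 : Tendsto (fun N : ℕ => ((lab c Q (N * t) 1 0).card : ℝ) / ((N * t : ℕ) : ℝ)) atTop
        (𝓝 0) := h0.comp (tendsto_id.atTop_mul_const' ht)
    have h4 := h3.mul_const (t : ℝ)
    rw [zero_mul] at h4
    refine squeeze_zero (fun N => by positivity) (fun N => ?_) h4
    rcases Nat.eq_zero_or_pos N with h5 | h5
    · subst h5
      simp
    · have h6 : (0 : ℝ) < N := by exact_mod_cast h5
      have h7 : (0 : ℝ) < t := by exact_mod_cast ht
      have h8 : ((lab c Q N 1 g).card : ℝ) ≤ ((lab c Q (N * t) 1 0).card : ℝ) := by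
        exact_mod_cast shift c Q ht ht1 ht2 N
      calc ((lab c Q N 1 g).card : ℝ) / N ≤ ((lab c Q (N * t) 1 0).card : ℝ) / N :=
            div_le_div_of_nonneg_right h8 h6.le
        _ = ((lab c Q (N * t) 1 0).card : ℝ) / ((N * t : ℕ) : ℝ) * t := by
            push_cast
            field_simp
  · push Not at hne
    have : ∀ N : ℕ, ((lab c Q N 1 g).card : ℝ) / N = 0 := by
      intro N
      rw [hne N]
      simp
    simp only [this]
    exact tendsto_const_nhds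

theorem zero_all (hQ : 0 < Q)
    (h0 : Tendsto (fun N : ℕ => ((lab c Q N 1 0).card : ℝ) / N) atTop (𝓝 0)) (s₀ : ℕ)
    (g : GG r Q) :
    Tendsto (fun N : ℕ => ((lab c Q N s₀ g).card : ℝ) / N) atTop (𝓝 0) := by
  by_cases hne : ∃ n, 0 < n ∧ sp c Q n = s₀
  · obtain ⟨n, hn, hns⟩ := hne
    have hs0 : 0 < s₀ := by rw [← hns]; exact sp_pos c Q hn
    have hs1 : sp c Q s₀ = s₀ := by rw [← hns]; exact sp_sp c Q hn
    have hs2 : gam c Q s₀ = 0 := by rw [← hns]; exact gam_sp c Q hn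
    refine squeeze_zero (fun N => by positivity) (fun N => ?_) (zero_one c Q hQ h0 g)
    rw [card_lab c Q hs0 hs1 hs2]
    refine div_le_div_of_nonneg_right ?_ (Nat.cast_nonneg N)
    exact_mod_cast Finset.card_le_card (lab_mono c Q (Nat.div_le_self N s₀))
  · have : ∀ N : ℕ, ((lab c Q N s₀ g).card : ℝ) / N = 0 := by
      intro N
      have : lab c Q N s₀ g = ∅ := by
        rw [Finset.eq_empty_iff_forall_notMem]
        intro n hn
        rw [mem_lab] at hn
        exact hne ⟨n, hn.1.1, hn.2.1⟩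
      rw [this]
      simp
    simp only [this]
    exact tendsto_const_nhds

theorem den_pos (hQ : 0 < Q) {d : ℝ}
    (hd : Tendsto (fun N : ℕ => ((lab c Q N 1 0).card : ℝ) / N) atTop (𝓝 d)) : 0 < d := by
  classical
  have hd0 : 0 ≤ d := ge_of_tendsto' hd fun N => by positivity
  rcases hd0.lt_or_eq with h | h
  · exact h
  exfalso
  subst h
  have : NeZero Q := ⟨hQ.ne'⟩
  have : NeZero (Nat.totient Q) := ⟨(Nat.totient_pos.2 hQ).ne'⟩
  obtain ⟨M, hM, -, hgood⟩ := good (spa_Sp c Q hQ) (1 / 2) (by norm_num)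
  set I : Finset (ℕ × GG r Q) := M.divisors ×ˢ Finset.univ with hI
  have hlim : Tendsto (fun N : ℕ => ∑ x ∈ I, ((lab c Q N x.1 x.2).card : ℝ) / N) atTop
      (𝓝 (∑ x ∈ I, (0 : ℝ))) :=
    tendsto_finsetSum _ fun x _ => zero_all c Q hQ hd x.1 x.2
  rw [Finset.sum_const_zero] at hlim
  have hlow : ∀ᶠ N : ℕ in atTop, (1 / 2 : ℝ) ≤ ∑ x ∈ I, ((lab c Q N x.1 x.2).card : ℝ) / N := by
    filter_upwards [eventually_gt_atTop 0] with N hN
    have hN0 : (0 : ℝ) < N := by exact_mod_cast hN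
    have hsub : Ioc 0 N ⊆ ((Ioc 0 N).filter fun n => ¬ prt (Sp c Q) n ∣ M) ∪
        I.biUnion fun x => lab c Q N x.1 x.2 := by
      intro n hn
      rw [mem_union]
      by_cases h1 : prt (Sp c Q) n ∣ M
      · right
        rw [mem_biUnion]
        refine ⟨(sp c Q n, gam c Q n), ?_, ?_⟩
        · rw [hI, mem_product]
          refine ⟨?_, Finset.mem_univ _⟩
          rw [Nat.mem_divisors]
          exact ⟨h1, hM.ne'⟩
        · rw [mem_lab]
          rw [mem_Ioc] at hn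
          exact ⟨hn, rfl, rfl⟩
      · left
        rw [mem_filter]
        exact ⟨hn, h1⟩
    have h2 : (N : ℝ) ≤ (((Ioc 0 N).filter fun n => ¬ prt (Sp c Q) n ∣ M).card : ℝ) +
        ∑ x ∈ I, ((lab c Q N x.1 x.2).card : ℝ) := by
      have h3 := (Finset.card_le_card hsub).trans (Finset.card_union_le _ _)
      have h4 : (I.biUnion fun x => lab c Q N x.1 x.2).card ≤
          ∑ x ∈ I, (lab c Q N x.1 x.2).card := Finset.card_biUnion_le
      rw [Nat.card_Ioc, Nat.sub_zero] at h3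
      exact_mod_cast h3.trans (Nat.add_le_add_left h4 _)
    have h3 := hgood N
    rw [← Finset.sum_div, le_div_iff₀ hN0]
    linarith
  have := ge_of_tendsto hlim hlow
  norm_num at this

end

theorem t_DEN : S_DEN := by
  intro r c Q hQ k
  obtain ⟨d, hd⟩ := lab_dens c Q (Q ^ k) 0
  obtain ⟨d1, hd1⟩ := lab_dens c Q 1 0
  have h1 := den_pos c Q hQ hd1
  have hQk : 0 < Q ^ k := pow_pos hQ k
  have hQk' : (0 : ℝ) < ((Q ^ k : ℕ) : ℝ) := by exact_mod_cast hQk
  refine ⟨d, ?_, hd⟩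
  have h2 : Tendsto (fun M : ℕ => ((lab c Q (M * Q ^ k) (Q ^ k) 0).card : ℝ) /
      ((M * Q ^ k : ℕ) : ℝ)) atTop (𝓝 d) := hd.comp (tendsto_id.atTop_mul_const' hQk)
  have h3 : Tendsto (fun M : ℕ => ((lab c Q M 1 0).card : ℝ) / M * ((Q ^ k : ℕ) : ℝ)⁻¹) atTop
      (𝓝 (d1 * ((Q ^ k : ℕ) : ℝ)⁻¹)) := hd1.mul_const _
  have h4 : d = d1 * ((Q ^ k : ℕ) : ℝ)⁻¹ := by
    refine tendsto_nhds_unique h2 (h3.congr fun M => ?_)
    rw [card_lab c Q hQk (sp_pow c Q hQ k) (gam_pow0 c Q hQ k), Nat.mul_div_cancel _ hQk]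
    push_cast
    rw [div_mul_eq_div_div, div_eq_mul_inv (((lab c Q M 1 0).card : ℝ) / M)]
  rw [h4]
  positivity

theorem t_COV : S_COV := by
  classical
  intro r c Q hQ δ hδ
  have : NeZero Q := ⟨hQ.ne'⟩
  have : NeZero (Nat.totient Q) := ⟨(Nat.totient_pos.2 hQ).ne'⟩
  obtain ⟨M, hM, -, hgood⟩ := good (spa_Sp c Q hQ) δ hδ
  refine ⟨(M.divisors ×ˢ (Finset.univ : Finset (GG r Q))).filter (fun x =>
    (x.1 : ZMod Q) * ((Additive.toMul x.2.1 : (ZMod Q)ˣ) : ZMod Q) = 1), ?_, ?_⟩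
  · intro x hx
    exact (mem_filter.1 hx).2
  · intro N
    refine le_trans ?_ (hgood N)
    rw [Nat.cast_le]
    refine Finset.card_le_card ?_
    intro n hn
    rw [mem_filter] at hn
    obtain ⟨hn1, hn2⟩ := hn
    unfold cls at hn1
    rw [mem_filter] at hn1
    obtain ⟨hn3, hn4⟩ := hn1
    rw [mem_filter]
    refine ⟨hn3, ?_⟩
    intro hdiv
    apply hn2
    rw [mem_filter, mem_product]
    rw [mem_Ioc] at hn3
    refine ⟨⟨?_, Finset.mem_univ _⟩, ?_⟩
    · rw [Nat.mem_divisors]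
      exact ⟨hdiv, hM.ne'⟩
    · have h1 := res_eq c Q hn3.1
      have h2 : (n : ZMod Q) = ((1 : ℕ) : ZMod Q) := by
        rw [ZMod.natCast_eq_natCast_iff']
        exact hn4
      rw [h2, Nat.cast_one] at h1
      exact h1.symm

end Pool.Agent.Run7.h416.QP
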